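import Mathlib

set_option autoImplicit false

/-! Induced representations in matrix form, over a commutative ring. -/

namespace Pool.Agent.H106MG

universe u

section
variable {G : Type*} [Group G] (H : Subgroup G) {R : Type u} [CommRing R] {d : ℕ}
  (φ : H →* Matrix.GeneralLinearGroup (Fin d) R)

/-- representative of a coset -/
noncomputable def rp (x : G ⧸ H) : G := Quotient.out x

theorem rp_mk (x : G ⧸ H) : (QuotientGroup.mk (rp H x) : G ⧸ H) = x := Quotient.out_eq x

theorem coc_mem (g : G) (x : G ⧸ H) : (rp H (g • x))⁻¹ * g * rp H x ∈ H := by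
  have h1 : (QuotientGroup.mk (rp H (g • x)) : G ⧸ H) = QuotientGroup.mk (g * rp H x) := by
    rw [rp_mk]
    conv_lhs => rw [← rp_mk H x]
    rfl
  rw [mul_assoc]
  exact QuotientGroup.eq.1 h1

/-- the cocycle -/
noncomputable def coc (g : G) (x : G ⧸ H) : H := ⟨(rp H (g • x))⁻¹ * g * rp H x, coc_mem H g x⟩

theorem coc_one (x : G ⧸ H) : coc H 1 x = 1 := by
  apply Subtype.ext
  simp [coc]

theorem coc_mul (g h : G) (x : G ⧸ H) : coc H (g * h) x = coc H g (h • x) * coc H h x := by
  apply Subtype.ext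
  simp only [coc, Subgroup.coe_mul, mul_smul]
  group

open Classical in
/-- the induced matrix -/
noncomputable def indM (g : G) : Matrix ((G ⧸ H) × Fin d) ((G ⧸ H) × Fin d) R :=
  Matrix.of fun p q =>
    if p.1 = g • q.1 then (φ (coc H g q.1) : Matrix (Fin d) (Fin d) R) p.2 q.2 else 0

variable [Fintype (G ⧸ H)]

open Classical in
theorem indM_one : indM H φ 1 = 1 := by
  ext ⟨x, i⟩ ⟨y, j⟩
  simp only [indM, Matrix.of_apply, one_smul, coc_one, map_one, Units.val_one]
  by_cases h : x = y
  · subst h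
    by_cases hij : i = j
    · subst hij; simp
    · simp [hij]
  · simp [h]

open Classical in
theorem indM_mul (g h : G) : indM H φ (g * h) = indM H φ g * indM H φ h := by
  ext ⟨x, i⟩ ⟨y, j⟩
  rw [Matrix.mul_apply, Fintype.sum_prod_type, Finset.sum_eq_single (h • y)]
  · simp only [indM, Matrix.of_apply, if_true, mul_smul]
    by_cases hx : x = g • h • y
    · simp only [hx, if_true, coc_mul, map_mul, Units.val_mul, Matrix.mul_apply]
    · simp [hx]
  · intro z _ hz
    refine Finset.sum_eq_zero fun k _ => ?_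
    simp only [indM, Matrix.of_apply]
    rw [if_neg hz, mul_zero]
  · intro h1
    exact absurd (Finset.mem_univ _) h1

open Classical in
/-- the induced homomorphism to matrices -/
noncomputable def indHom : G →* Matrix ((G ⧸ H) × Fin d) ((G ⧸ H) × Fin d) R where
  toFun := indM H φ
  map_one' := indM_one H φ
  map_mul' := indM_mul H φ

open Classical in
theorem indM_ker [Nontrivial R] (hd : 0 < d) (g : G) (h : indM H φ g = 1) :
    ∃ hg : g ∈ H, φ ⟨g, hg⟩ = 1 := by
  have key : ∀ i j, (if (QuotientGroup.mk 1 : G ⧸ H) = g • QuotientGroup.mk 1 then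
      (φ (coc H g (QuotientGroup.mk 1)) : Matrix (Fin d) (Fin d) R) i j else 0) =
      (1 : Matrix (Fin d) (Fin d) R) i j := by
    intro i j
    have h1 := congrFun (congrFun h (QuotientGroup.mk 1, i)) (QuotientGroup.mk 1, j)
    simp only [indM, Matrix.of_apply] at h1
    rw [h1]
    by_cases hij : i = j
    · subst hij; simp
    · simp [hij]
  have hx : (QuotientGroup.mk 1 : G ⧸ H) = g • QuotientGroup.mk 1 := by
    by_contra hne
    have h1 := key ⟨0, hd⟩ ⟨0, hd⟩
    rw [if_neg hne, Matrix.one_apply_eq] at h1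
    exact zero_ne_one h1
  have hgH : g ∈ H := by
    have h1 : (QuotientGroup.mk 1 : G ⧸ H) = QuotientGroup.mk (g * 1) := hx
    have h2 := QuotientGroup.eq.1 h1
    simpa using h2
  refine ⟨hgH, ?_⟩
  have h3 : φ (coc H g (QuotientGroup.mk 1)) = 1 := by
    apply Units.ext
    ext i j
    have h1 := key i j
    rw [if_pos hx] at h1
    exact h1
  have ht : rp H (QuotientGroup.mk 1) ∈ H := by
    have h1 := rp_mk H (QuotientGroup.mk 1 : G ⧸ H)
    have h2 := QuotientGroup.eq.1 h1
    simpa using H.inv_mem h2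
  set t : H := ⟨rp H (QuotientGroup.mk 1), ht⟩ with htd
  have h4 : coc H g (QuotientGroup.mk 1) = t⁻¹ * ⟨g, hgH⟩ * t := by
    apply Subtype.ext
    simp only [coc, Subgroup.coe_mul, InvMemClass.coe_inv, htd]
    rw [← hx]
  rw [h4, map_mul, map_mul, map_inv] at h3
  have h5 : φ ⟨g, hgH⟩ = φ t * ((φ t)⁻¹ * φ ⟨g, hgH⟩ * φ t) * (φ t)⁻¹ := by group
  rw [h5, h3]
  group

end

/-- The induced representation: a homomorphism `φ : H → GL_d(R)` from a subgroup of index `n`
gives a homomorphism `G → GL_{nd}(R)` whose kernel is contained in the kernel of `φ`. -/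
theorem exists_ind {G : Type*} [Group G] (H : Subgroup G) (hH : H.index ≠ 0) {R : Type u}
    [CommRing R] [Nontrivial R] {d : ℕ} (hd : 0 < d)
    (φ : H →* Matrix.GeneralLinearGroup (Fin d) R) :
    ∃ F : G →* Matrix.GeneralLinearGroup (Fin (H.index * d)) R,
      F.ker ≤ φ.ker.map H.subtype := by
  classical
  haveI : H.FiniteIndex := ⟨hH⟩
  haveI : Fintype (G ⧸ H) := Fintype.ofFinite _
  have hcard : Fintype.card ((G ⧸ H) × Fin d) = H.index * d := by
    rw [Fintype.card_prod, Fintype.card_fin, Subgroup.index, Nat.card_eq_fintype_card]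
  let e : (G ⧸ H) × Fin d ≃ Fin (H.index * d) := Fintype.equivFinOfCardEq hcard
  let ri := Matrix.reindexAlgEquiv R R e
  let μ : G →* Matrix (Fin (H.index * d)) (Fin (H.index * d)) R :=
    (ri : _ →* _).comp (indHom H φ)
  refine ⟨μ.toHomUnits, ?_⟩
  intro g hg
  have h1 : μ g = 1 := by
    rw [← MonoidHom.coe_toHomUnits, MonoidHom.mem_ker.1 hg, Units.val_one]
  have h2 : indM H φ g = 1 := by
    apply ri.injective
    rw [map_one]
    exact h1
  obtain ⟨hgH, h3⟩ := indM_ker H φ hd g h2
  exact ⟨⟨g, hgH⟩, h3, rfl⟩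

end Pool.Agent.H106MG
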