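import Pool.Agent.H106MG.Ring

set_option autoImplicit false

/-! The pushes lie in the Torelli group. -/

namespace Pool.Agent.H106MG

open Pool.Agent.H798R3.MG Pool.Agent.H29R2.MG Pool.Agent.H29R2.QD Pool.Agent.Helper950.BG
  Pool.Agent.TH35.MG

open scoped commutatorElement

universe u

/-- the automorphism `φ` of the surface group acts trivially on the first homology `ℤ^{2g}` -/
def ActsTrivially {g : ℕ} (φ : MulAut (SurfaceGroup g)) : Prop :=
  ∀ x, homologyClass (φ x) = homologyClass x

theorem at_one {g : ℕ} : ActsTrivially (1 : MulAut (SurfaceGroup g)) := fun _ => rfl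

theorem at_mul {g : ℕ} {φ ψ : MulAut (SurfaceGroup g)} (hφ : ActsTrivially φ)
    (hψ : ActsTrivially ψ) : ActsTrivially (φ * ψ) := by
  intro x
  rw [MulAut.mul_apply, hφ, hψ]

theorem at_inv {g : ℕ} {φ : MulAut (SurfaceGroup g)} (hφ : ActsTrivially φ) :
    ActsTrivially φ⁻¹ := by
  intro x
  rw [← hφ, MulAut.apply_inv_self]

/-- the automorphisms of the surface group which act trivially on the first homology `ℤ^{2g}` -/
def homTrivial (g : ℕ) : Subgroup (MulAut (SurfaceGroup g)) where
  carrier := {φ | ActsTrivially φ}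
  one_mem' := at_one
  mul_mem' := at_mul
  inv_mem' := at_inv

/-- The Torelli group: the mapping classes acting trivially on the first homology. -/
def Torelli (g : ℕ) : Subgroup (Mod g) :=
  ((homTrivial g).subgroupOf (orientedAut g)).map (toMod g)

/-- homologically trivial elements of `orSub` -/
def HT (g : ℕ) (φ : orSub g) : Prop :=
  ∀ x : FG g, freeHom g ((φ : MulAut (FG g)) x) = freeHom g x

theorem modF_torelli {g : ℕ} {φ : orSub g} (h : HT g φ) : modF g φ ∈ Torelli g := by
  refine ⟨TQ.qh g φ, ?_, rfl⟩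
  intro x
  obtain ⟨z, rfl⟩ := mk_surjective g x
  have h1 : (orientedAut g).subtype (TQ.qh g φ) (mk g z) = mk g ((φ : MulAut (FG g)) z) :=
    TQ.qe_mk φ z
  rw [h1]
  have h2 := h z
  unfold homologyClass homologyHom
  rw [outHom_mk, outHom_mk, h2]

theorem freeHom_dd (g m : ℕ) : freeHom g (Pool.Agent.H798R3.MG.dd g m) = 1 := by
  unfold Pool.Agent.H798R3.MG.dd
  rw [map_mul, map_mul, map_mul, map_inv, map_inv, mul_comm (freeHom g (ha g m))]
  group

theorem hal_hom (g n i : ℕ) : (freeHom g).comp (hal g n i) = freeHom g := by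
  apply free_ext
  · intro j
    simp only [MonoidHom.comp_apply, hal, ends, fa, FreeGroup.lift_apply_of, Sum.elim_inl]
    split_ifs <;>
      simp only [map_mul, map_inv, freeHom_dd, mul_comm, one_mul, inv_one,
        mul_inv_cancel, mul_left_comm, mul_inv_rev, inv_inv]
  · intro j
    simp only [MonoidHom.comp_apply, hal, ends, fb, FreeGroup.lift_apply_of, Sum.elim_inr]
    split_ifs <;>
      simp only [map_mul, map_inv, freeHom_dd, mul_comm, one_mul, mul_one, inv_one,
        mul_inv_cancel, mul_left_comm, mul_inv_rev, inv_inv]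

theorem sal_ht {g n i : ℕ} (hok : OrOK g (hal g n i) (hal' g n i)) : HT g (sal g n i) := by
  intro x
  have h1 : ((sal g n i : orSub g) : MulAut (FG g)) x = hal g n i x := mkS_apply hok x
  rw [h1]
  exact DFunLike.congr_fun (hal_hom g n i) x

/-- deep elements of the Torelli group killed by all small representations -/
theorem torelli_deep {g : ℕ} (hg : 5 ≤ g) :
    ∃ (Γ : Subgroup (orSub g)) (A B al be T : ℕ → Γ) (tau : Γ) (P : Subgroup Γ),
      HRel (g - 3) A B al be T tau ∧
      Subgroup.closure (allH (g - 3) A B al be T tau) = ⊤ ∧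
      P ≤ PiT (g - 3) al be tau ∧
      P.map ((modF g).comp Γ.subtype) ≤ Torelli g ∧
      ∀ k, ∃ x ∈ dser P k, modF g x ≠ 1 := by
  obtain ⟨Γ, A, B, al, be, T, tau, r, hgen, hA, hB, hal, hbe, hx⟩ :=
    setup (g := g) (N := g - 3) (by omega) (by omega)
  have hn : g - 3 + 2 = g - 1 := by omega
  have hok : ∀ i < 2, OrOK g (Pool.Agent.H798R3.MG.hal g (g - 3 + 2) i) (hal' g (g - 3 + 2) i) := by
    intro i hi
    exact ((whyp.k g (g - 3) (g - 3 + 2) (by omega) le_rfl (by omega)).1 i (by omega)).2.2.1
  refine ⟨Γ, A, B, al, be, T, tau, Subgroup.closure {al 0, al 1}, r, hgen, ?_, ?_, ?_⟩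
  · rw [Subgroup.closure_le]
    rintro x (rfl | rfl)
    · exact Subgroup.subset_closure (Or.inl (Or.inl ⟨0, by omega, rfl⟩))
    · exact Subgroup.subset_closure (Or.inl (Or.inl ⟨1, by omega, rfl⟩))
  · rw [Subgroup.map_le_iff_le_comap, Subgroup.closure_le]
    rintro x (rfl | rfl)
    · show modF g (al 0 : orSub g) ∈ Torelli g
      rw [hal 0 (by omega)]
      exact modF_torelli (sal_ht (hok 0 (by omega)))
    · show modF g (al 1 : orSub g) ∈ Torelli g
      rw [hal 1 (by omega)]
      exact modF_torelli (sal_ht (hok 1 (by omega)))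
  · intro k
    obtain ⟨x, hx1, hx2⟩ := t_N g (g - 3 + 2) (by omega) (by omega) hok Γ.subtype
      (Subgroup.closure {al 0, al 1}) (al 0) (al 1)
      (Subgroup.subset_closure (Or.inl rfl)) (Subgroup.subset_closure (Or.inr rfl))
      (hal 0 (by omega)) (hal 1 (by omega)) k
    exact ⟨x, hx1, fun h => hx2 (modF_ker h)⟩

end Pool.Agent.H106MG
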