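import Pool.Agent.H106MG.Ring
import Pool.Agent.H106MG.Ind
import Pool.Agent.H106MG.Torelli

set_option autoImplicit false

/-! Projective representations of `Mod_g`, and representations of normal subgroups of `Mod_g` with
few conjugates. -/

namespace Pool.Agent.H106MG

open Pool.Agent.H798R3.MG Pool.Agent.H29R2.MG Pool.Agent.H29R2.QD Pool.Agent.Helper950.BG
  Pool.Agent.TH35.MG

open scoped commutatorElement

universe u v

/-- deep elements act trivially -/
theorem gl_triv {g d : ℕ} (hg : 5 ≤ g) (hd : d < 2 ^ (g - 5))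
    {Γ : Subgroup (orSub g)} {A B al be T : ℕ → Γ} {tau : Γ} (r : HRel (g - 3) A B al be T tau)
    (hgen : Subgroup.closure (allH (g - 3) A B al be T tau) = ⊤)
    {R : Type u} [CommRing R] (ψ : Γ →* Matrix.GeneralLinearGroup (Fin d) R) :
    ∃ n, ∀ x ∈ dser (PiT (g - 3) al be tau) n, ψ x = 1 := by
  obtain ⟨R0, hnoe, ψ0, hψ⟩ := descend (allH_finite (g - 3) A B al be T tau) hgen ψ
  obtain ⟨n, hn⟩ := IsNoetherianRing.isNilpotent_nilradical R0
  refine ⟨2 ^ (g - 5) + n, fun x hx1 => ?_⟩
  rw [← dser_add'] at hx1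
  have h3 := dser_cong ψ0 (dser (PiT (g - 3) al be tau) (2 ^ (g - 5))) (nilradical R0)
    (nil_step hg hd r hgen ψ0) n x hx1
  have h4 : (nilradical R0) ^ 2 ^ n = 0 := by
    rw [← Nat.sub_add_cancel (Nat.lt_two_pow_self (n := n)).le, pow_add, hn, mul_zero]
  rw [h4] at h3
  exact hψ x (cong_zero _ h3)

section Ad
variable {R : Type u} [CommRing R] {d : ℕ}

/-- the conjugation action of `GL_d` on matrices -/
def AdM : Matrix.GeneralLinearGroup (Fin d) R →* Module.End R (Matrix (Fin d) (Fin d) R) where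
  toFun T :=
    { toFun := fun X => (T : Matrix (Fin d) (Fin d) R) * X *
        ((T⁻¹ : Matrix.GeneralLinearGroup (Fin d) R) : Matrix (Fin d) (Fin d) R)
      map_add' := fun X Y => by rw [mul_add, add_mul]
      map_smul' := fun a X => by
        rw [Matrix.mul_smul, Matrix.smul_mul, RingHom.id_apply] }
  map_one' := by
    apply LinearMap.ext
    intro X
    show ((1 : Matrix.GeneralLinearGroup (Fin d) R) : Matrix (Fin d) (Fin d) R) * X *
      (((1 : Matrix.GeneralLinearGroup (Fin d) R)⁻¹ : Matrix.GeneralLinearGroup (Fin d) R) :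
        Matrix (Fin d) (Fin d) R) = X
    rw [inv_one, Units.val_one, one_mul, mul_one]
  map_mul' S T := by
    apply LinearMap.ext
    intro X
    show ((S * T : Matrix.GeneralLinearGroup (Fin d) R) : Matrix (Fin d) (Fin d) R) * X *
      (((S * T)⁻¹ : Matrix.GeneralLinearGroup (Fin d) R) : Matrix (Fin d) (Fin d) R) =
      (S : Matrix (Fin d) (Fin d) R) * ((T : Matrix (Fin d) (Fin d) R) * X *
        ((T⁻¹ : Matrix.GeneralLinearGroup (Fin d) R) : Matrix (Fin d) (Fin d) R)) *
        ((S⁻¹ : Matrix.GeneralLinearGroup (Fin d) R) : Matrix (Fin d) (Fin d) R)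
    rw [mul_inv_rev, Units.val_mul, Units.val_mul]
    simp only [mul_assoc]

theorem AdM_ker (T : Matrix.GeneralLinearGroup (Fin d) R) :
    AdM T = 1 ↔ T ∈ Subgroup.center (Matrix.GeneralLinearGroup (Fin d) R) := by
  constructor
  · intro h
    rw [Subgroup.mem_center_iff]
    intro S
    have h1 : (T : Matrix (Fin d) (Fin d) R) * (S : Matrix (Fin d) (Fin d) R) *
        ((T⁻¹ : Matrix.GeneralLinearGroup (Fin d) R) : Matrix (Fin d) (Fin d) R) =
        (S : Matrix (Fin d) (Fin d) R) := LinearMap.congr_fun h (S : Matrix (Fin d) (Fin d) R)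
    rw [← Units.val_mul, ← Units.val_mul] at h1
    have h2 := Units.ext h1
    rw [mul_inv_eq_iff_eq_mul] at h2
    exact h2.symm
  · intro h
    rw [Matrix.GeneralLinearGroup.mem_center_iff_val_mem_range_scalar] at h
    obtain ⟨a, ha⟩ := h
    apply LinearMap.ext
    intro X
    show (T : Matrix (Fin d) (Fin d) R) * X *
        ((T⁻¹ : Matrix.GeneralLinearGroup (Fin d) R) : Matrix (Fin d) (Fin d) R) = X
    rw [← ha, Matrix.scalar_comm a (Commute.all _), mul_assoc, ha, ← Units.val_mul,
      mul_inv_cancel, Units.val_one, mul_one]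

/-- the conjugation action in matrix form -/
noncomputable def AdG : Module.End R (Matrix (Fin d) (Fin d) R) ≃ₐ[R]
    Matrix (Fin (d * d)) (Fin (d * d)) R :=
  LinearMap.toMatrixAlgEquiv ((Matrix.stdBasis R (Fin d) (Fin d)).reindex finProdFinEquiv)

/-- representations on matrices as homomorphisms to `GL` -/
noncomputable def toG {H : Type*} [Group H] (f : H →* Module.End R (Matrix (Fin d) (Fin d) R)) :
    H →* Matrix.GeneralLinearGroup (Fin (d * d)) R :=
  (((AdG (R := R) (d := d) : Module.End R (Matrix (Fin d) (Fin d) R) ≃ₐ[R]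
    Matrix (Fin (d * d)) (Fin (d * d)) R) : Module.End R (Matrix (Fin d) (Fin d) R) →*
    Matrix (Fin (d * d)) (Fin (d * d)) R).comp f).toHomUnits

theorem toG_ker {H : Type*} [Group H] (f : H →* Module.End R (Matrix (Fin d) (Fin d) R)) (x : H) :
    toG f x = 1 ↔ f x = 1 := by
  constructor
  · intro h
    have h1 : AdG (f x) = 1 := congrArg (fun y : Matrix.GeneralLinearGroup (Fin (d * d)) R =>
      (y : Matrix (Fin (d * d)) (Fin (d * d)) R)) h
    exact AdG.injective (by rw [h1, map_one])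
  · intro h
    apply Units.ext
    show AdG (f x) = 1
    rw [h, map_one]

end Ad

section inv
variable {G : Type v} [Group G] {N : Subgroup G} [N.Normal] {R : Type u} [CommRing R] {d : ℕ}
  (ρ : N →* Matrix.GeneralLinearGroup (Fin d) R)

/-- the matrix `T` is an isomorphism from `ρ` to the conjugate of `ρ` by `f` -/
def Intertwines (f : G) (T : Matrix.GeneralLinearGroup (Fin d) R) : Prop :=
  ∀ n : N, ρ (MulAut.conjNormal f n) = T * ρ n * T⁻¹

/-- the conjugate of `ρ` by `f` is isomorphic to `ρ` -/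
def IsoConj (f : G) : Prop := ∃ T : Matrix.GeneralLinearGroup (Fin d) R, Intertwines ρ f T

theorem inter_mul {f h : G} {S T : Matrix.GeneralLinearGroup (Fin d) R} (h1 : Intertwines ρ f S)
    (h2 : Intertwines ρ h T) : Intertwines ρ (f * h) (S * T) := by
  intro n
  rw [map_mul, MulAut.mul_apply, h1, h2]
  group

theorem inter_one : Intertwines ρ 1 1 := by
  intro n
  rw [map_one, MulAut.one_apply, one_mul, inv_one, mul_one]

theorem inter_inv {f : G} {T : Matrix.GeneralLinearGroup (Fin d) R} (h1 : Intertwines ρ f T) :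
    Intertwines ρ f⁻¹ T⁻¹ := by
  intro n
  have h2 := h1 (MulAut.conjNormal f⁻¹ n)
  rw [← MulAut.mul_apply, ← map_mul, mul_inv_cancel, map_one, MulAut.one_apply] at h2
  rw [h2]
  group

theorem inter_self (n : N) : Intertwines ρ (n : G) (ρ n) := by
  intro m
  rw [← map_mul, ← map_inv, ← map_mul]
  congr 1

theorem inter_unique (hρ : Subgroup.centralizer (Set.range ρ) ≤
    Subgroup.center (Matrix.GeneralLinearGroup (Fin d) R)) {f : G}
    {S T : Matrix.GeneralLinearGroup (Fin d) R} (h1 : Intertwines ρ f S)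
    (h2 : Intertwines ρ f T) : AdM S = AdM T := by
  have h3 : T⁻¹ * S ∈ Subgroup.center (Matrix.GeneralLinearGroup (Fin d) R) := by
    apply hρ
    rw [Subgroup.mem_centralizer_iff]
    rintro _ ⟨n, rfl⟩
    have h4 : S * ρ n * S⁻¹ = T * ρ n * T⁻¹ := by rw [← h1, ← h2]
    have h5 : ρ n = T⁻¹ * (S * ρ n * S⁻¹) * T := by rw [h4]; group
    rw [h5]
    nth_rewrite 1 [show T⁻¹ * (S * ρ n * S⁻¹) * T * (T⁻¹ * S) = T⁻¹ * S * ρ n by group]
    rw [← h5]
  have h4 := (AdM_ker _).2 h3
  have h5 : S = T * (T⁻¹ * S) := by group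
  rw [h5, map_mul, h4, mul_one]

theorem iso_one : IsoConj ρ 1 := ⟨1, inter_one ρ⟩

theorem iso_mul {f h : G} (h1 : IsoConj ρ f) (h2 : IsoConj ρ h) : IsoConj ρ (f * h) := by
  obtain ⟨S, hS⟩ := h1
  obtain ⟨T, hT⟩ := h2
  exact ⟨S * T, inter_mul ρ hS hT⟩

theorem iso_inv {f : G} (h1 : IsoConj ρ f) : IsoConj ρ f⁻¹ := by
  obtain ⟨S, hS⟩ := h1
  exact ⟨S⁻¹, inter_inv ρ hS⟩

/-- the stabilizer in `G` of the isomorphism class of `ρ` -/
def isoStab : Subgroup G where
  carrier := {f | IsoConj ρ f}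
  one_mem' := iso_one ρ
  mul_mem' := iso_mul ρ
  inv_mem' := iso_inv ρ

open Classical in
/-- the projective representation of the stabilizer -/
theorem exists_alpha (hρ : Subgroup.centralizer (Set.range ρ) ≤
    Subgroup.center (Matrix.GeneralLinearGroup (Fin d) R)) :
    ∃ α : isoStab ρ →* Module.End R (Matrix (Fin d) (Fin d) R),
      ∀ (n : N) (h : (n : G) ∈ isoStab ρ), α ⟨n, h⟩ = AdM (ρ n) := by
  choose T hT using fun f : isoStab ρ => f.2
  refine ⟨{ toFun := fun f => AdM (T f)
            map_one' := ?_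
            map_mul' := ?_ }, ?_⟩
  · rw [← map_one AdM]
    exact inter_unique ρ hρ (hT 1) (inter_one ρ)
  · intro f h
    rw [← map_mul]
    exact inter_unique ρ hρ (hT (f * h)) (inter_mul ρ (hT f) (hT h))
  · intro n h
    exact inter_unique ρ hρ (hT ⟨n, h⟩) (inter_self ρ n)

end inv

end Pool.Agent.H106MG
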