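import Pool.Agent.TH35.MG.Thm

set_option autoImplicit false

/-! Representations of `Mod_g` of small degree over arbitrary commutative rings: the kernel is not
solvable. -/

namespace Pool.Agent.H106MG

open Pool.Agent.H798R3.MG Pool.Agent.H29R2.MG Pool.Agent.H29R2.QD Pool.Agent.Helper950.BG
  Pool.Agent.TH35.MG

open scoped commutatorElement

universe u

section cong
variable {R : Type u} [CommRing R] {d : ℕ}

/-- the congruence subgroup of `GL_d(R)` of an ideal -/
def cong (I : Ideal R) : Subgroup (Matrix.GeneralLinearGroup (Fin d) R) :=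
  (Matrix.GeneralLinearGroup.map (Ideal.Quotient.mk I)).ker

theorem mem_cong (I : Ideal R) (x : Matrix.GeneralLinearGroup (Fin d) R) :
    x ∈ cong I ↔ ∀ i j, ((x : Matrix (Fin d) (Fin d) R) - 1) i j ∈ I := by
  unfold cong
  rw [MonoidHom.mem_ker]
  constructor
  · intro h i j
    have h1 := congrArg (fun y : Matrix.GeneralLinearGroup (Fin d) (R ⧸ I) =>
      (y : Matrix (Fin d) (Fin d) (R ⧸ I)) i j) h
    rw [← Ideal.Quotient.eq_zero_iff_mem, Matrix.sub_apply, map_sub, sub_eq_zero]
    have h2 : (Ideal.Quotient.mk I) ((x : Matrix (Fin d) (Fin d) R) i j) =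
      (1 : Matrix (Fin d) (Fin d) (R ⧸ I)) i j := h1
    rw [h2]
    by_cases hij : i = j
    · subst hij; simp
    · simp [hij]
  · intro h
    apply Units.ext
    ext i j
    have h1 := h i j
    rw [← Ideal.Quotient.eq_zero_iff_mem, Matrix.sub_apply, map_sub, sub_eq_zero] at h1
    have h2 : (Matrix.GeneralLinearGroup.map (Ideal.Quotient.mk I) x :
      Matrix (Fin d) (Fin d) (R ⧸ I)) i j =
        (Ideal.Quotient.mk I) ((x : Matrix (Fin d) (Fin d) R) i j) := rfl
    rw [h2, h1]
    by_cases hij : i = j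
    · subst hij; simp
    · simp [hij]

theorem mul_ent {I J : Ideal R} {M M' : Matrix (Fin d) (Fin d) R} (h : ∀ i j, M i j ∈ I)
    (h' : ∀ i j, M' i j ∈ J) (i j : Fin d) : (M * M') i j ∈ I * J := by
  rw [Matrix.mul_apply]
  exact Ideal.sum_mem _ fun k _ => Ideal.mul_mem_mul (h i k) (h' k j)

theorem mul_ent' {I : Ideal R} {M M' : Matrix (Fin d) (Fin d) R} (h : ∀ i j, M i j ∈ I)
    (i j : Fin d) : (M * M') i j ∈ I := by
  rw [Matrix.mul_apply]
  exact Ideal.sum_mem _ fun k _ => I.mul_mem_right _ (h i k)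

theorem comm_cong {I J : Ideal R} {x y : Matrix.GeneralLinearGroup (Fin d) R} (hx : x ∈ cong I)
    (hy : y ∈ cong J) : ⁅x, y⁆ ∈ cong (I * J) := by
  rw [mem_cong] at hx hy ⊢
  have e : ((⁅x, y⁆ : Matrix.GeneralLinearGroup (Fin d) R) : Matrix (Fin d) (Fin d) R) - 1 =
      (((x : Matrix (Fin d) (Fin d) R) - 1) * ((y : Matrix (Fin d) (Fin d) R) - 1) -
        ((y : Matrix (Fin d) (Fin d) R) - 1) * ((x : Matrix (Fin d) (Fin d) R) - 1)) *
        ((x⁻¹ * y⁻¹ : Matrix.GeneralLinearGroup (Fin d) R) : Matrix (Fin d) (Fin d) R) := by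
    have e1 : ((x : Matrix (Fin d) (Fin d) R) - 1) * ((y : Matrix (Fin d) (Fin d) R) - 1) -
        ((y : Matrix (Fin d) (Fin d) R) - 1) * ((x : Matrix (Fin d) (Fin d) R) - 1) =
        ((x * y : Matrix.GeneralLinearGroup (Fin d) R) : Matrix (Fin d) (Fin d) R) -
        ((y * x : Matrix.GeneralLinearGroup (Fin d) R) : Matrix (Fin d) (Fin d) R) := by
      rw [Units.val_mul, Units.val_mul]
      noncomm_ring
    rw [e1, sub_mul, ← Units.val_mul, ← Units.val_mul, commutatorElement_def]
    have e2 : x * y * (x⁻¹ * y⁻¹) = x * y * x⁻¹ * y⁻¹ := by group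
    have e3 : y * x * (x⁻¹ * y⁻¹) = 1 := by group
    rw [e2, e3, Units.val_one]
  rw [e]
  refine mul_ent' ?_
  intro i j
  rw [Matrix.sub_apply]
  refine Ideal.sub_mem _ (mul_ent hx hy i j) ?_
  rw [mul_comm I J]
  exact mul_ent hy hx i j

theorem dser_cong {G : Type*} [Group G] (ψ : G →* Matrix.GeneralLinearGroup (Fin d) R)
    (P : Subgroup G) (I : Ideal R) (h : ∀ x ∈ P, ψ x ∈ cong I) (k : ℕ) :
    ∀ x ∈ dser P k, ψ x ∈ cong (I ^ 2 ^ k) := by
  induction k with
  | zero => simpa [dser] using h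
  | succ k ih =>
    have h1 : dser P (k + 1) ≤ (cong (I ^ 2 ^ (k + 1))).comap ψ := by
      show ⁅dser P k, dser P k⁆ ≤ _
      rw [Subgroup.commutator_le]
      intro a ha b hb
      rw [Subgroup.mem_comap, map_commutatorElement]
      have h2 := comm_cong (ih a ha) (ih b hb)
      rwa [← pow_add, ← two_mul, ← pow_succ'] at h2
    intro x hx
    exact h1 hx

end cong

/-- a solvable subgroup has a trivial term of the derived series -/
theorem dser_solv {G : Type*} [Group G] (P : Subgroup G) [h : Group.IsSolvable P] :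
    ∃ k, dser P k = ⊥ := by
  obtain ⟨n, hn⟩ := h
  refine ⟨n, ?_⟩
  rw [← dser_sub, hn, Subgroup.map_bot]

theorem dser_mono' {G : Type*} [Group G] {P Q : Subgroup G} (h : P ≤ Q) (k : ℕ) :
    dser P k ≤ dser Q k := by
  induction k with
  | zero => exact h
  | succ k ih => exact Subgroup.commutator_mono ih ih

theorem dser_add' {G : Type*} [Group G] (P : Subgroup G) (k n : ℕ) :
    dser (dser P k) n = dser P (k + n) := by
  induction n with
  | zero => rfl
  | succ n ih =>
    show ⁅dser (dser P k) n, dser (dser P k) n⁆ = ⁅dser P (k + n), dser P (k + n)⁆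
    rw [ih]

theorem allH_finite {G : Type*} [Group G] (N : ℕ) (A B al be T : ℕ → G) (tau : G) :
    (allH N A B al be T tau).Finite := by
  have h : allH N A B al be T tau ⊆
      (A '' {i | i < N} ∪ B '' {i | i < N} ∪ al '' {i | i < N} ∪ be '' {i | i < N}) ∪
        (T '' {i | i < N}) ∪ {tau} := by
    rintro x (⟨i, hi, h | h | h | h⟩ | ⟨i, hi, h⟩ | h)
    · exact Or.inl (Or.inl (Or.inl (Or.inl (Or.inl ⟨i, hi, h.symm⟩))))
    · exact Or.inl (Or.inl (Or.inl (Or.inl (Or.inr ⟨i, hi, h.symm⟩))))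
    · exact Or.inl (Or.inl (Or.inl (Or.inr ⟨i, hi, h.symm⟩)))
    · exact Or.inl (Or.inl (Or.inr ⟨i, hi, h.symm⟩))
    · exact Or.inl (Or.inr ⟨i, by simp only [Set.mem_setOf_eq]; omega, h.symm⟩)
    · exact Or.inr h
  have f : {i : ℕ | i < N}.Finite := Set.finite_lt_nat N
  exact ((((((f.image A).union (f.image B)).union (f.image al)).union (f.image be)).union
    (f.image T)).union (Set.finite_singleton tau)).subset h

/-- descent of a representation to a Noetherian subring -/
theorem descend {R : Type u} [CommRing R] {d : ℕ} {Γ : Type*} [Group Γ] {S : Set Γ}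
    (hS : S.Finite) (hgen : Subgroup.closure S = ⊤)
    (ψ : Γ →* Matrix.GeneralLinearGroup (Fin d) R) :
    ∃ (R0 : Subalgebra ℤ R), IsNoetherianRing R0 ∧
      ∃ ψ0 : Γ →* Matrix.GeneralLinearGroup (Fin d) R0,
        ∀ x, ψ0 x = 1 → ψ x = 1 := by
  classical
  let E : Set R := ⋃ s ∈ S, (Set.range (fun p : Fin d × Fin d =>
    (ψ s : Matrix (Fin d) (Fin d) R) p.1 p.2) ∪ Set.range (fun p : Fin d × Fin d =>
    (ψ s⁻¹ : Matrix (Fin d) (Fin d) R) p.1 p.2))
  have hE : E.Finite := hS.biUnion fun s _ => (Set.finite_range _).union (Set.finite_range _)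
  let R0 : Subalgebra ℤ R := Algebra.adjoin ℤ E
  have hfg : R0.FG := by
    have h1 := Subalgebra.fg_adjoin_finset (R := ℤ) hE.toFinset
    rwa [hE.coe_toFinset] at h1
  have hft : Algebra.FiniteType ℤ R0 := (Subalgebra.fg_iff_finiteType R0).1 hfg
  have hnoe : IsNoetherianRing R0 := Algebra.FiniteType.isNoetherianRing ℤ R0
  have hmem : ∀ x : Γ, (∀ i j, (ψ x : Matrix (Fin d) (Fin d) R) i j ∈ R0) ∧
      ∀ i j, (ψ x⁻¹ : Matrix (Fin d) (Fin d) R) i j ∈ R0 := by
    intro x
    have hx : x ∈ Subgroup.closure S := hgen ▸ Subgroup.mem_top x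
    induction hx using Subgroup.closure_induction with
    | mem s hs =>
      refine ⟨fun i j => Algebra.subset_adjoin ?_, fun i j => Algebra.subset_adjoin ?_⟩
      · exact Set.mem_biUnion hs (Or.inl ⟨(i, j), rfl⟩)
      · exact Set.mem_biUnion hs (Or.inr ⟨(i, j), rfl⟩)
    | one =>
      have h1 : ∀ i j, (1 : Matrix (Fin d) (Fin d) R) i j ∈ R0 := by
        intro i j
        by_cases hij : i = j
        · subst hij; simp [R0.one_mem]
        · simp [hij, R0.zero_mem]
      refine ⟨fun i j => ?_, fun i j => ?_⟩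
      · rw [map_one]; exact h1 i j
      · rw [inv_one, map_one]; exact h1 i j
    | mul a b _ _ ha hb =>
      refine ⟨fun i j => ?_, fun i j => ?_⟩
      · rw [map_mul, Units.val_mul, Matrix.mul_apply]
        exact Subalgebra.sum_mem _ fun k _ => R0.mul_mem (ha.1 i k) (hb.1 k j)
      · rw [mul_inv_rev, map_mul, Units.val_mul, Matrix.mul_apply]
        exact Subalgebra.sum_mem _ fun k _ => R0.mul_mem (hb.2 i k) (ha.2 k j)
    | inv a _ ha =>
      refine ⟨ha.2, ?_⟩
      rw [inv_inv]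
      exact ha.1
  let μ : Γ →* Matrix (Fin d) (Fin d) R0 :=
    { toFun := fun x => Matrix.of fun i j =>
        (⟨(ψ x : Matrix (Fin d) (Fin d) R) i j, (hmem x).1 i j⟩ : R0)
      map_one' := by
        ext i j
        simp only [map_one, Units.val_one, Matrix.of_apply]
        by_cases hij : i = j
        · subst hij; simp
        · simp [hij]
      map_mul' := fun x y => by
        ext i j
        simp only [map_mul, Units.val_mul, Matrix.of_apply, Matrix.mul_apply]
        push_cast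
        rfl }
  refine ⟨R0, hnoe, μ.toHomUnits, ?_⟩
  intro x hx
  have h1 : μ x = 1 := by
    rw [← MonoidHom.coe_toHomUnits, hx, Units.val_one]
  apply Units.ext
  ext i j
  have h2 := congrArg (fun M : Matrix (Fin d) (Fin d) R0 => ((M i j : R0) : R)) h1
  have h3 : (ψ x : Matrix (Fin d) (Fin d) R) i j = (((1 : Matrix (Fin d) (Fin d) R0) i j : R0) : R) := h2
  rw [h3, Units.val_one]
  by_cases hij : i = j
  · subst hij; simp
  · simp [hij]

/-- deep elements of `P` are unipotent modulo the nilradical -/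
theorem nil_step {S : Type u} [CommRing S] {D g : ℕ} (hg : 5 ≤ g) (hD : D < 2 ^ (g - 5))
    {Γ : Subgroup (orSub g)} {A B al be T : ℕ → Γ} {tau : Γ} (r : HRel (g - 3) A B al be T tau)
    (hgen : Subgroup.closure (allH (g - 3) A B al be T tau) = ⊤)
    (ψ0 : Γ →* Matrix.GeneralLinearGroup (Fin D) S) :
    ∀ x ∈ dser (PiT (g - 3) al be tau) (2 ^ (g - 5)), ψ0 x ∈ cong (nilradical S) := by
  intro x hx1
  rw [mem_cong]
  intro i j
  rw [mem_nilradical, nilpotent_iff_mem_prime]
  intro p hp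
  have hp' : p.IsPrime := hp
  let K := FractionRing (S ⧸ p)
  let e : S →+* K := (algebraMap (S ⧸ p) K).comp (Ideal.Quotient.mk p)
  let f : Γ →* Matrix.GeneralLinearGroup (Fin D) K :=
    (Matrix.GeneralLinearGroup.map e).comp ψ0
  have h4 := solvable_std (K := AlgebraicClosure K) r (by omega) hgen (2 ^ (g - 5))
    (Fin D → AlgebraicClosure K) ((glEnd D K).comp f)
    (by
      rw [show g - 3 - 2 = g - 5 by omega]
      simpa using hD) (by simpa using hD.le) hx1
  have h5 : f x = 1 := by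
    apply glEnd_inj D K
    rw [map_one]
    exact h4
  have h6 := congrArg (fun M : Matrix.GeneralLinearGroup (Fin D) K =>
    (M : Matrix (Fin D) (Fin D) K) i j) h5
  have h7 : e ((ψ0 x : Matrix (Fin D) (Fin D) S) i j) = (1 : Matrix (Fin D) (Fin D) K) i j := h6
  have h8 : e (((ψ0 x : Matrix (Fin D) (Fin D) S) - 1) i j) = 0 := by
    rw [Matrix.sub_apply, map_sub, h7, sub_eq_zero]
    by_cases hij : i = j
    · subst hij; simp
    · simp [hij]
  have h9 : (Ideal.Quotient.mk p) (((ψ0 x : Matrix (Fin D) (Fin D) S) - 1) i j) = 0 := by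
    apply IsFractionRing.injective (S ⧸ p) K
    rw [map_zero]
    exact h8
  exact Ideal.Quotient.eq_zero_iff_mem.1 h9

theorem cong_zero {S : Type u} [CommRing S] {D : ℕ} (x : Matrix.GeneralLinearGroup (Fin D) S)
    (h : x ∈ cong (0 : Ideal S)) : x = 1 := by
  rw [mem_cong] at h
  apply Units.ext
  ext i j
  have := h i j
  rw [Matrix.sub_apply, Ideal.zero_eq_bot, Ideal.mem_bot, sub_eq_zero] at this
  exact this

/-- the kernel of a representation of `Mod_g` of degree less than `2 ^ (g - 5)` over a commutative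
ring is not solvable -/
theorem ker_not_solvable {g D : ℕ} (hg : 5 ≤ g) (hD : D < 2 ^ (g - 5)) {R : Type u} [CommRing R]
    (F : Mod g →* Matrix.GeneralLinearGroup (Fin D) R) : ¬ Group.IsSolvable F.ker := by
  intro hsol
  obtain ⟨Γ, A, B, al, be, T, tau, r, hgen, -, -, -, -, hx⟩ :=
    setup (g := g) (N := g - 3) (by omega) (by omega)
  set φ : Γ →* Mod g := (modF g).comp Γ.subtype with hφ
  obtain ⟨R0, hnoe, ψ0, hψ⟩ := descend (allH_finite (g - 3) A B al be T tau) hgen (F.comp φ)
  set P : Subgroup Γ := PiT (g - 3) al be tau with hP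
  have h1 : ∀ x ∈ dser P (2 ^ (g - 5)), ψ0 x ∈ cong (nilradical R0) :=
    nil_step hg hD r hgen ψ0
  obtain ⟨n, hn⟩ := IsNoetherianRing.isNilpotent_nilradical R0
  obtain ⟨s, hs⟩ := dser_solv F.ker
  -- deeper elements are in the kernel
  have h2 : ∀ x ∈ dser P (2 ^ (g - 5) + n), φ x ∈ F.ker := by
    intro x hx1
    rw [← dser_add'] at hx1
    have h3 := dser_cong ψ0 (dser P (2 ^ (g - 5))) (nilradical R0) h1 n x hx1
    have h4 : (nilradical R0) ^ 2 ^ n = 0 := by
      rw [← Nat.sub_add_cancel (Nat.lt_two_pow_self (n := n)).le, pow_add, hn, mul_zero]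
    rw [h4] at h3
    exact hψ x (cong_zero _ h3)
  have h3 : ((dser P (2 ^ (g - 5) + n)).map φ) ≤ F.ker := by
    rintro _ ⟨x, hx1, rfl⟩
    exact h2 x hx1
  obtain ⟨x, hx1, hx2⟩ := hx (2 ^ (g - 5) + n + s)
  apply hx2
  apply modF_ker
  have h4 : φ x ∈ dser ((dser P (2 ^ (g - 5) + n)).map φ) s := by
    rw [dser_map, dser_add']
    exact Subgroup.mem_map_of_mem φ hx1
  have h5 := dser_mono' h3 s h4
  rw [hs] at h5
  exact Subgroup.mem_bot.1 h5

end Pool.Agent.H106MG
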